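import Mathlib

/-!
# MP_59f064_al: regular elements of pi-regular rings have regular higher powers

A ring `R` is pi-regular if each `a` has a power `a ^ n`, `n ≥ 1`, with `a ^ n ∈ a ^ n R a ^ n`. The question
is whether a pi-regular ring can have a regular element `a` such that no power `a ^ k` with `k ≥ 2` is
regular. The answer is no, and the regularity of `a` is not needed: apply the definition to `a ^ 2`. More
precisely, for each `a` and each `m ≥ 1` there is a regular power `a ^ k` with `k ≥ m` and `m ∣ k`.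
-/

set_option autoImplicit false

universe u

namespace Pool.Agent.Results.MP_59f064_al.HigherRegularPower

/-- In a pi-regular ring each element `a` has, for each `m ≥ 1`, a regular power `a ^ k` with `k` a positive
multiple of `m`; in particular there is no regular element `a` all of whose powers `a ^ k`, `k ≥ 2`, are
not regular. -/
theorem result (R : Type u) [Ring R]
    (hR : ∀ a : R, ∃ n : ℕ, 1 ≤ n ∧ ∃ x : R, a ^ n = a ^ n * x * a ^ n) :
    (∀ (a : R) (m : ℕ), 1 ≤ m → ∃ k : ℕ, m ≤ k ∧ m ∣ k ∧ ∃ x : R, a ^ k = a ^ k * x * a ^ k) ∧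
    ¬ ∃ a : R, (∃ x : R, a = a * x * a) ∧ ∀ k : ℕ, 2 ≤ k → ¬ ∃ x : R, a ^ k = a ^ k * x * a ^ k := by
  have key : ∀ (a : R) (m : ℕ), 1 ≤ m →
      ∃ k : ℕ, m ≤ k ∧ m ∣ k ∧ ∃ x : R, a ^ k = a ^ k * x * a ^ k := by
    intro a m _
    obtain ⟨n, hn, x, hx⟩ := hR (a ^ m)
    refine ⟨m * n, Nat.le_mul_of_pos_right m hn, Nat.dvd_mul_right m n, x, ?_⟩
    rw [pow_mul]
    exact hx
  refine ⟨key, ?_⟩
  rintro ⟨a, -, ha⟩
  obtain ⟨k, hk, -, hx⟩ := key a 2 (by norm_num)
  exact ha k hk hx

end Pool.Agent.Results.MP_59f064_al.HigherRegularPower
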